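import Pool.Agent.J4H60.WeakDom

open Pool.Agent.J4H60.WeakDom

namespace Pool.Agent.Results.MP_2d208d_co.TreeIndepLeWeak

/-- **Independent domination versus weak domination in trees.**  For every finite tree `T` the
independent domination number is at most the weak domination number.  Moreover, for every weak
dominating set `D` and every vertex `r` there is an independent dominating set which contains `r`
and has at most `|D|` vertices. -/
theorem result {V : Type*} [Fintype V] (T : SimpleGraph V) [T.LocallyFinite] (hT : T.IsTree) :
    indepDomNumber T ≤ weakDomNumber T ∧
      ∀ (r : V) (D : Finset V), IsWeakDom T D →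
        ∃ I : Finset V, IsIndepDom T I ∧ r ∈ I ∧ I.card ≤ D.card :=
  main hT

end Pool.Agent.Results.MP_2d208d_co.TreeIndepLeWeak
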